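import Pool.Agent.K3h48.RK.Main

/-!
# Retractional skeletons in `P(K)` and projectional skeletons in `C(K)`

For a compact space `K` consider the conditions

* (i) `C(K)` has a 1-projectional skeleton;
* (ii) some convex symmetric subset of the dual ball of `C(K)` with the weak* topology is induced by
  an r-skeleton in this ball;
* (iii) some convex subset of `P(K)` is induced by an r-skeleton in `P(K)`.

We prove (iii) ⟹ (ii), (ii) ⟹ (i) and (iii) ⟹ (i), for every compact `K`.  This answers all three
parts of Q1 of MP_baa10a_an in the affirmative.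

Proof.  Let `S` be `P(K)` or the dual ball, `{r s}` an r-skeleton in `S` that induces a convex (and
in the case of the ball symmetric) set `D`, and let `K s` be the range of `r s`.

(1) Each continuous function `f` on `S` satisfies `f ∘ r s = f` for some `s`, because the compact
sets `|f a - f b| ≥ 1 / m` are covered by the increasing open sets `r s a ≠ r s b`.

(2) For each `s` there is `s' ≥ s` such that `K s'` contains all convex combinations of elements of
`K s` (as `K s` is separable and `D` is convex) and such that, whenever `r s a ≠ r s b`, there is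
`x ∈ C(K)` with `x ∘ r s' = x` and `x a ≠ x b` (as the compact sets `dist (r s a) (r s b) ≥ 1 / m`
are covered by finitely many of the open sets `x a ≠ x b`, `x ∈ C(K)`, one can use (1) for
countably many `x`).

(3) If `t` is the supremum of an increasing sequence obtained by iteration of (2), then `K t` is
convex and its points are separated by the `x ∈ C(K)` with `x ∘ r t = x`.  Both `r t (λ a + (1-λ) b)`
and `λ r t a + (1-λ) r t b` are in `K t` and all these `x` agree on them, so `r t` is affine (and odd
in the case of the ball).  So the set `Γ'` of the indices with affine (and odd) `r t` is cofinal; it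
is closed under suprema of increasing sequences.

(4) For `t ∈ Γ'` let `P t f` be the function `x ↦ (r t δ_x) f`.  As `S` is the closed convex hull of
the Dirac measures `δ_x` (or `± δ_x`) and `r t` is affine (and odd), `φ (P t f) = (r t φ) f` for all
`φ ∈ S`.  From this the algebraic properties of a 1-projectional skeleton follow, and
`P (s n) f → P t f` uniformly if `t` is the supremum of the `s n`, by a compactness argument as in
(1).  This gives (i).

(5) That (i) implies (ii) is known: take the adjoint projections.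
-/

open Set Topology Filter

namespace Pool.Agent.Results.MP_baa10a_an.SkeletonsEquivalent

universe u w

/-- `{r s}_{s ∈ Γ}` is a retractional skeleton in `L`: continuous retractions indexed by an
up-directed partially ordered set such that all `r s [L]` are metrizable; `r s = r s ∘ r t =
r t ∘ r s` for `s ≤ t`; every strictly increasing sequence `σ 0 < σ 1 < ...` has a supremum `t` and
`r t x` is the limit of `r (σ n) x`, for all `x`; and `x` is the limit of `r s x` over `s ∈ Γ`. -/
structure IsRSkeleton {L : Type u} [TopologicalSpace L] {Γ : Type w} [PartialOrder Γ]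
    (r : Γ → L → L) : Prop where
  nonempty : Nonempty Γ
  directed : ∀ s t : Γ, ∃ q, s ≤ q ∧ t ≤ q
  cont : ∀ s, Continuous (r s)
  retr : ∀ s x, r s (r s x) = r s x
  metr : ∀ s, TopologicalSpace.MetrizableSpace (range (r s))
  comp : ∀ s t, s ≤ t → r s = r s ∘ r t ∧ r s = r t ∘ r s
  seq : ∀ σ : ℕ → Γ, StrictMono σ → ∃ t, IsLUB (range σ) t ∧
    ∀ x, Tendsto (fun n => r (σ n) x) atTop (𝓝 (r t x))
  conv : ∀ x, Tendsto (fun s => r s x) atTop (𝓝 x)

/-- `{P s}_{s ∈ Γ}` is a 1-projectional skeleton in `X`: bounded linear projections with norm at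
most 1 indexed by an up-directed partially ordered set, with separable ranges whose union is `X`;
`P s = P s ∘ P t = P t ∘ P s` for `s ≤ t`; every strictly increasing sequence `σ 0 < σ 1 < ...` has
a supremum `t` and `P t [X]` is the closure of the union of the `P (σ n) [X]`. -/
structure IsProjSkeleton {X : Type u} [NormedAddCommGroup X] [NormedSpace ℝ X]
    {Γ : Type w} [PartialOrder Γ] (P : Γ → X →L[ℝ] X) : Prop where
  nonempty : Nonempty Γ
  directed : ∀ s t : Γ, ∃ q, s ≤ q ∧ t ≤ q
  proj : ∀ s, P s ∘L P s = P s
  norm_le : ∀ s, ‖P s‖ ≤ 1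
  sep : ∀ s, TopologicalSpace.SeparableSpace (range (P s))
  union : ∀ x : X, ∃ s, x ∈ range (P s)
  comp : ∀ s t, s ≤ t → P s = P s ∘L P t ∧ P s = P t ∘L P s
  seq : ∀ σ : ℕ → Γ, StrictMono σ → ∃ t, IsLUB (range σ) t ∧
    range (P t) = closure (⋃ n, range (P (σ n)))

/-- The closed unit ball of the dual of `C(K)`, a set of elements of the dual with the weak*
topology. -/
def dualBall (K : Type u) [TopologicalSpace K] [CompactSpace K] : Set (WeakDual ℝ C(K, ℝ)) :=
  {φ | ∀ f : C(K, ℝ), |φ f| ≤ ‖f‖}

/-- `P(K)`: the Radon probability measures on `K`, as the positive functionals `μ` on `C(K)` with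
`μ 1 = 1` (Riesz representation), with the weak* topology. -/
def prob (K : Type u) [TopologicalSpace K] [CompactSpace K] : Set (WeakDual ℝ C(K, ℝ)) :=
  {μ | (∀ f : C(K, ℝ), 0 ≤ f → 0 ≤ μ f) ∧ μ 1 = 1}

/-- The subset `D` of `S` is induced by an r-skeleton in `S`: it is the union of the ranges of the
retractions. -/
def IsInduced {E : Type u} [TopologicalSpace E] (S D : Set E) : Prop :=
  ∃ (Γ : Type w) (_ : PartialOrder Γ) (r : Γ → S → S), IsRSkeleton r ∧
    D = (Subtype.val : S → E) '' ⋃ s, range (r s)

/-- (i): `C(K)` has a 1-projectional skeleton. -/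
def ConditionI (K : Type u) [TopologicalSpace K] [CompactSpace K] : Prop :=
  ∃ (Γ : Type w) (_ : PartialOrder Γ) (P : Γ → C(K, ℝ) →L[ℝ] C(K, ℝ)), IsProjSkeleton P

/-- (ii): some convex symmetric subset of the dual ball is induced by an r-skeleton in this
ball. -/
def ConditionII (K : Type u) [TopologicalSpace K] [CompactSpace K] : Prop :=
  ∃ D : Set (WeakDual ℝ C(K, ℝ)), Convex ℝ D ∧ (∀ φ ∈ D, -φ ∈ D) ∧
    IsInduced.{u, w} (dualBall K) D

/-- (iii): some convex subset of `P(K)` is induced by an r-skeleton in `P(K)`. -/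
def ConditionIII (K : Type u) [TopologicalSpace K] [CompactSpace K] : Prop :=
  ∃ D : Set (WeakDual ℝ C(K, ℝ)), Convex ℝ D ∧ IsInduced.{u, w} (prob K) D

theorem toR {L : Type u} [TopologicalSpace L] {Γ : Type w} [PartialOrder Γ] {r : Γ → L → L}
    (h : IsRSkeleton r) : K3h48.RK.IsRSkeleton r :=
  ⟨h.nonempty, h.directed, h.cont, h.retr, h.metr, h.comp, h.seq, h.conv⟩

theorem ofR {L : Type u} [TopologicalSpace L] {Γ : Type w} [PartialOrder Γ] {r : Γ → L → L}
    (h : K3h48.RK.IsRSkeleton r) : IsRSkeleton r :=
  ⟨h.nonempty, h.directed, h.cont, h.retr, h.metr, h.comp, h.seq, h.conv⟩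

theorem toII {K : Type u} [TopologicalSpace K] [CompactSpace K] (h : ConditionII.{u, w} K) :
    K3h48.RK.CondII.{u, w} K := by
  obtain ⟨D, hD, hneg, Γ, hΓ, r, hr, rfl⟩ := h
  exact ⟨Γ, hΓ, r, toR hr, hD, hneg⟩

theorem ofII {K : Type u} [TopologicalSpace K] [CompactSpace K]
    (h : K3h48.RK.CondII.{u, w} K) : ConditionII.{u, w} K := by
  obtain ⟨Γ, hΓ, r, hr, hD, hneg⟩ := h
  exact ⟨_, hD, hneg, Γ, hΓ, r, ofR hr, rfl⟩

theorem toIII {K : Type u} [TopologicalSpace K] [CompactSpace K] (h : ConditionIII.{u, w} K) :
    K3h48.RK.CondIII.{u, w} K := by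
  obtain ⟨D, hD, Γ, hΓ, r, hr, rfl⟩ := h
  exact ⟨Γ, hΓ, r, toR hr, hD⟩

theorem ofI {K : Type u} [TopologicalSpace K] [CompactSpace K]
    (h : K3h48.RK.CondI.{u, w} K) : ConditionI.{u, w} K := by
  obtain ⟨Γ, hΓ, P, h⟩ := h
  exact ⟨Γ, hΓ, P, h.nonempty, h.directed, h.proj, h.norm_le, h.sep, h.union, h.comp, h.seq⟩

/-- For every compact space `K`: (a) (iii) implies (ii), (b) (ii) implies (i), (c) (iii) implies
(i). -/
theorem result (K : Type u) [TopologicalSpace K] [CompactSpace K] :
    (ConditionIII.{u, w} K → ConditionII.{u, w} K) ∧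
    (ConditionII.{u, w} K → ConditionI.{u, w} K) ∧
    (ConditionIII.{u, w} K → ConditionI.{u, w} K) :=
  ⟨fun h => ofII (K3h48.RK.I_II K (K3h48.RK.III_I K (toIII h))),
    fun h => ofI (K3h48.RK.II_I K (toII h)),
    fun h => ofI (K3h48.RK.III_I K (toIII h))⟩

end Pool.Agent.Results.MP_baa10a_an.SkeletonsEquivalent
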